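import Pool.Agent.N608.OEC.Model

/-!
The algorithm, its properness, and the lower bound for the probability that an edge is coloured.
-/

set_option linter.unusedSectionVars false

open Finset
open scoped ENNReal

namespace Pool.Agent.N608.OEC

variable {V : Type} [DecidableEq V] {Δ : ℕ}

/-- A representative of an unordered pair. -/
noncomputable def rep (e : Sym2 V) : V × V := Quot.out e

theorem ue_rep (e : Sym2 V) : ue (rep e) = e := Quot.out_eq e

theorem mem_rep {e : Sym2 V} {v : V} : v ∈ e ↔ v = (rep e).1 ∨ v = (rep e).2 := by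
  conv_lhs => rw [← ue_rep e]
  exact Sym2.mem_iff

/-- State of a history. -/
noncomputable def stOf (a K : ℝ) : Hist V Δ → St V (Fin Δ)
  | [] => init V (Fin Δ)
  | eo :: h => step a K (stOf a K h) (rep eo.1).1 (rep eo.1).2 eo.2

theorem inv_stOf {a K : ℝ} (ha : 0 ≤ a) (haK : a * K ^ 2 ≤ 1 / 2) (hK : 1 ≤ K) (h : Hist V Δ) :
    Inv a K (stOf a K h) := by
  induction h with
  | nil => exact inv_init hK
  | cons eo h ih => exact ih.step ha haK _

/-- The algorithm. -/
noncomputable def alg {a K : ℝ} (ha : 0 ≤ a) (haK : a * K ^ 2 ≤ 1 / 2) (hK : 1 ≤ K) : Alg V Δ :=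
  fun h e => PMF.ofFintype
    (fun o => ENNReal.ofReal (w a K (stOf a K h) (rep e).1 (rep e).2 o)) (by
      rw [← ENNReal.ofReal_sum_of_nonneg
        (fun o _ => w_nonneg ha (inv_stOf ha haK hK h) o), w_sum, ENNReal.ofReal_one])

theorem alg_apply {a K : ℝ} (ha : 0 ≤ a) (haK : a * K ^ 2 ≤ 1 / 2) (hK : 1 ≤ K) (h : Hist V Δ)
    (e : Sym2 V) (o : Option (Fin Δ)) :
    alg ha haK hK h e o = ENNReal.ofReal (w a K (stOf a K h) (rep e).1 (rep e).2 o) := rfl

theorem step_zero {C : Type*} [Fintype C] [DecidableEq C] {a K : ℝ} {s : St V C} {u v x : V}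
    {c : C} {o : Option C} (h : s.S x c = 0) : (step a K s u v o).S x c = 0 := by
  simp only [step, h]
  split_ifs <;> simp

/-- Used colours have weight zero. -/
def ZeroHist (a K : ℝ) (h : Hist V Δ) : Prop :=
  ∀ (e : Sym2 V) (c : Fin Δ), (e, some c) ∈ h → ∀ v, v ∈ e → (stOf a K h).S v c = 0

theorem proper_step {a K : ℝ} (ha : 0 ≤ a) (haK : a * K ^ 2 ≤ 1 / 2) (hK : 1 ≤ K) {h : Hist V Δ}
    (h1 : ProperHist h) (h2 : ZeroHist a K h) {e : Sym2 V} {o : Option (Fin Δ)}
    (ho : alg ha haK hK h e o ≠ 0) :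
    ProperHist ((e, o) :: h) ∧ ZeroHist a K ((e, o) :: h) := by
  have hpos : ∀ c, o = some c → ∀ v, v ∈ e → (stOf a K h).S v c ≠ 0 := by
    intro c hc v hv
    subst hc
    rw [alg_apply, ne_eq, ENNReal.ofReal_eq_zero, not_le] at ho
    have hP : P a K (stOf a K h) (rep e).1 (rep e).2 c ≠ 0 := ne_of_gt ho
    have hr : raw a (stOf a K h) (rep e).1 (rep e).2 c ≠ 0 := by
      intro h0
      apply hP
      unfold P
      split_ifs
      · exact h0
      · rfl
    unfold raw at hr
    rcases mem_rep.1 hv with rfl | rfl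
    · exact left_ne_zero_of_mul (right_ne_zero_of_mul hr)
    · exact right_ne_zero_of_mul (right_ne_zero_of_mul hr)
  constructor
  · intro e' f' c he hf hne v hv hv'
    rw [List.mem_cons] at he hf
    rcases he with he | he
    · rcases hf with hf | hf
      · exact hne ((Prod.ext_iff.1 he).1.trans (Prod.ext_iff.1 hf).1.symm)
      · have e1 : e' = e := (Prod.ext_iff.1 he).1
        have e2 : some c = o := (Prod.ext_iff.1 he).2
        exact hpos c e2.symm v (e1 ▸ hv) (h2 _ _ hf v hv')
    · rcases hf with hf | hf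
      · have e1 : f' = e := (Prod.ext_iff.1 hf).1
        have e2 : some c = o := (Prod.ext_iff.1 hf).2
        exact hpos c e2.symm v (e1 ▸ hv') (h2 _ _ he v hv)
      · exact h1 _ _ _ he hf hne v hv hv'
  · intro f c hf v hv
    rw [List.mem_cons] at hf
    simp only [stOf]
    rcases hf with hf | hf
    · have e1 : f = e := (Prod.ext_iff.1 hf).1
      have e2 : some c = o := (Prod.ext_iff.1 hf).2
      subst e2
      subst e1
      exact step_S_eq (mem_rep.1 hv)
    · exact step_zero (h2 _ _ hf v hv)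

theorem proper_runFrom {a K : ℝ} (ha : 0 ≤ a) (haK : a * K ^ 2 ≤ 1 / 2) (hK : 1 ≤ K)
    (es : List (Sym2 V)) (h : Hist V Δ) (h1 : ProperHist h) (h2 : ZeroHist a K h)
    (h' : Hist V Δ) (hh : h' ∈ (runFrom (alg ha haK hK) es h).support) : ProperHist h' := by
  induction es generalizing h with
  | nil =>
    rw [runFrom, PMF.mem_support_pure_iff] at hh
    rw [hh]; exact h1
  | cons e es ih =>
    rw [runFrom, PMF.mem_support_bind_iff] at hh
    obtain ⟨o, ho, hh⟩ := hh
    rw [PMF.mem_support_iff] at ho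
    obtain ⟨g1, g2⟩ := proper_step ha haK hK h1 h2 ho
    exact ih _ g1 g2 hh

theorem runFrom_coloured (A : Alg V Δ) (es : List (Sym2 V)) (h : Hist V Δ) (e : Sym2 V)
    (he : ∃ c : Fin Δ, (e, some c) ∈ h) :
    (runFrom A es h).toOuterMeasure {h | ∃ c : Fin Δ, (e, some c) ∈ h} = 1 := by
  rw [PMF.toOuterMeasure_apply_eq_one_iff]
  induction es generalizing h with
  | nil =>
    intro h' hh
    rw [runFrom, PMF.mem_support_pure_iff] at hh
    rw [hh]; exact he
  | cons f es ih =>
    intro h' hh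
    rw [runFrom, PMF.mem_support_bind_iff] at hh
    obtain ⟨o, -, hh⟩ := hh
    obtain ⟨c, hc⟩ := he
    exact ih _ ⟨c, List.mem_cons_of_mem _ hc⟩ hh

theorem prob_ge {a K : ℝ} (ha : 0 ≤ a) (haK : a * K ^ 2 ≤ 1 / 2) (hK : 1 ≤ K)
    (pre post : List (Sym2 V)) (e : Sym2 V) (h : Hist V Δ) :
    ENNReal.ofReal (E a K (pre.map rep) (fun s => ∑ c, P a K s (rep e).1 (rep e).2 c)
      (stOf a K h)) ≤
    (runFrom (alg ha haK hK) (pre ++ e :: post) h).toOuterMeasure
      {h | ∃ c : Fin Δ, (e, some c) ∈ h} := by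
  induction pre generalizing h with
  | nil =>
    rw [List.nil_append, runFrom, PMF.toOuterMeasure_bind_apply, tsum_fintype,
      Fintype.sum_option, List.map_nil, E_nil,
      ENNReal.ofReal_sum_of_nonneg (fun c _ => P_nonneg ha (inv_stOf ha haK hK h) c)]
    refine le_trans (Finset.sum_le_sum fun c _ => ?_) le_add_self
    rw [runFrom_coloured _ _ _ _ ⟨c, List.mem_cons_self⟩, mul_one, alg_apply]
    exact le_rfl
  | cons f pre ih =>
    rw [List.cons_append, runFrom, PMF.toOuterMeasure_bind_apply, tsum_fintype, List.map_cons,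
      E_cons, T_apply]
    have hnn : ∀ o : Option (Fin Δ), 0 ≤ E a K (pre.map rep)
        (fun s => ∑ c, P a K s (rep e).1 (rep e).2 c)
        (step a K (stOf a K h) (rep f).1 (rep f).2 o) := by
      intro o
      have h1 : E a K (pre.map rep) (fun _ => (0 : ℝ))
          (step a K (stOf a K h) (rep f).1 (rep f).2 o) ≤
          E a K (pre.map rep) (fun s => ∑ c, P a K s (rep e).1 (rep e).2 c)
        (step a K (stOf a K h) (rep f).1 (rep f).2 o) :=
        E_mono ha haK _ (fun s hs => Finset.sum_nonneg fun c _ => P_nonneg ha hs c)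
          ((inv_stOf ha haK hK h).step ha haK o)
      rwa [E_const] at h1
    rw [ENNReal.ofReal_sum_of_nonneg (fun o _ =>
      mul_nonneg (w_nonneg ha (inv_stOf ha haK hK h) o) (hnn o))]
    refine Finset.sum_le_sum fun o _ => ?_
    rw [ENNReal.ofReal_mul (w_nonneg ha (inv_stOf ha haK hK h) o), alg_apply]
    gcongr
    exact ih ((f, o) :: h)

end Pool.Agent.N608.OEC
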