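import Mathlib

/-!
Online partial edge colouring: the state process, its one-step expectation operator and the
invariants.  A state stores for every vertex `x` and every colour `c` a weight `S x c`
(zero as soon as `c` is used at `x`) and a counter `Y x c` used in the analysis only.
-/

set_option linter.unusedSectionVars false

open Finset

namespace Pool.Agent.N608.OEC

variable {V C : Type*} [DecidableEq V] [Fintype C] [DecidableEq C]

/-- State of the colouring process. -/
structure St (V C : Type*) where
  S : V → C → ℝ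
  Y : V → C → ℝ

/-- The initial state. -/
def init (V C : Type*) : St V C := ⟨fun _ _ => 1, fun _ _ => 0⟩

/-- Unclipped probability of colour `c` for the arriving edge `u v`. -/
def raw (a : ℝ) (s : St V C) (u v : V) (c : C) : ℝ := a * (s.S u c * s.S v c)

open Classical in
/-- Probability of colour `c` for the arriving edge `u v`. -/
noncomputable def P (a K : ℝ) (s : St V C) (u v : V) (c : C) : ℝ :=
  if (s.S u c ≤ K * (1 - raw a s u v c) ∧ s.S v c ≤ K * (1 - raw a s u v c)) ∧
    ∑ c', raw a s u v c' ≤ 1 then raw a s u v c else 0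

/-- Law of the decision for the arriving edge `u v`. -/
noncomputable def w (a K : ℝ) (s : St V C) (u v : V) : Option C → ℝ
  | none => 1 - ∑ c, P a K s u v c
  | some c => P a K s u v c

/-- State after the decision `o` for the arriving edge `u v`. -/
noncomputable def step (a K : ℝ) (s : St V C) (u v : V) (o : Option C) : St V C where
  S x c := if x = u ∨ x = v then (if o = some c then 0 else s.S x c / (1 - P a K s u v c))
    else s.S x c
  Y x c := if x = u then s.Y u c + s.S v c else if x = v then s.Y v c + s.S u c else s.Y x c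

/-- Invariants of the reachable states. -/
structure Inv (a K : ℝ) (s : St V C) : Prop where
  nn : ∀ v c, 0 ≤ s.S v c
  le : ∀ v c, s.S v c ≤ K
  y : ∀ v c, s.S v c * (1 - a * s.Y v c) ≤ 1

section basic

variable {a K : ℝ} {s : St V C} {u v : V}

theorem raw_nonneg (ha : 0 ≤ a) (h : Inv a K s) (c : C) : 0 ≤ raw a s u v c :=
  mul_nonneg ha (mul_nonneg (h.nn _ _) (h.nn _ _))

theorem raw_le (ha : 0 ≤ a) (h : Inv a K s) (c : C) : raw a s u v c ≤ a * K ^ 2 := by
  have hK : 0 ≤ K := (h.nn u c).trans (h.le u c)
  unfold raw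
  refine mul_le_mul_of_nonneg_left ?_ ha
  rw [pow_two]
  exact mul_le_mul (h.le _ _) (h.le _ _) (h.nn _ _) hK

theorem P_nonneg (ha : 0 ≤ a) (h : Inv a K s) (c : C) : 0 ≤ P a K s u v c := by
  unfold P
  split_ifs
  · exact raw_nonneg ha h c
  · exact le_rfl

theorem P_le_raw (ha : 0 ≤ a) (h : Inv a K s) (c : C) : P a K s u v c ≤ raw a s u v c := by
  unfold P
  split_ifs
  · exact le_rfl
  · exact raw_nonneg ha h c

theorem P_le (ha : 0 ≤ a) (h : Inv a K s) (c : C) : P a K s u v c ≤ a * K ^ 2 :=
  (P_le_raw ha h c).trans (raw_le ha h c)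

theorem sum_P_le_one (ha : 0 ≤ a) (h : Inv a K s) : ∑ c, P a K s u v c ≤ 1 := by
  by_cases h1 : ∑ c', raw a s u v c' ≤ 1
  · exact (Finset.sum_le_sum fun c _ => P_le_raw ha h c).trans h1
  · have : ∀ c, P a K s u v c = 0 := by
      intro c
      unfold P
      rw [if_neg]
      exact fun h2 => h1 h2.2
    simp [this]

theorem w_nonneg (ha : 0 ≤ a) (h : Inv a K s) (o : Option C) : 0 ≤ w a K s u v o := by
  cases o with
  | none => exact sub_nonneg.2 (sum_P_le_one ha h)
  | some c => exact P_nonneg ha h c

theorem w_sum : ∑ o, w a K s u v o = 1 := by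
  rw [Fintype.sum_option]
  simp [w]

theorem inv_init (hK : 1 ≤ K) : Inv a K (init V C) where
  nn _ _ := zero_le_one
  le _ _ := hK
  y _ _ := by simp [init]

theorem Inv.step (ha : 0 ≤ a) (haK : a * K ^ 2 ≤ 1 / 2) (h : Inv a K s) (o : Option C) :
    Inv a K (step a K s u v o) := by
  have hP : ∀ c, P a K s u v c ≤ 1 / 2 := fun c => (P_le ha h c).trans haK
  have hP0 : ∀ c, 0 < 1 - P a K s u v c := fun c => by linarith [hP c]
  have key : ∀ x c, (x = u ∨ x = v) → s.S x c / (1 - P a K s u v c) ≤ K := by
    intro x c hx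
    rw [div_le_iff₀ (hP0 c)]
    unfold P
    split_ifs with h1
    · rcases hx with rfl | rfl
      · exact h1.1.1
      · exact h1.1.2
    · simpa using h.le x c
  have key2 : ∀ x y c, raw a s u v c = a * (s.S x c * s.S y c) →
      s.S x c / (1 - P a K s u v c) * (1 - a * (s.Y x c + s.S y c)) ≤ 1 := by
    intro x y c hr
    rw [div_mul_eq_mul_div, div_le_one (hP0 c)]
    have h2 := h.y x c
    have h3 : 0 ≤ a * (s.S x c * s.S y c) := mul_nonneg ha (mul_nonneg (h.nn _ _) (h.nn _ _))
    unfold P
    split_ifs with h1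
    · rw [hr]; nlinarith
    · nlinarith
  refine ⟨?_, ?_, ?_⟩
  · intro x c
    simp only [OEC.step]
    split_ifs
    · exact le_rfl
    · exact div_nonneg (h.nn _ _) (hP0 c).le
    · exact h.nn _ _
  · intro x c
    simp only [OEC.step]
    split_ifs with h1
    · exact (h.nn x c).trans (h.le x c)
    · exact key x c h1
    · exact h.le _ _
  · intro x c
    simp only [OEC.step]
    by_cases hx : x = u ∨ x = v
    · rw [if_pos hx]
      split_ifs with h1 h2 h3 h4
      · simp
      · simp
      · simp
      · subst h4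
        exact key2 x v c rfl
      · rcases hx with hx | hx
        · exact absurd hx h4
        · subst hx
          exact key2 x u c (by unfold raw; ring)
      · exact absurd hx (by tauto)
    · rw [if_neg hx]
      push Not at hx
      rw [if_neg hx.1, if_neg hx.2]
      exact h.y x c

end basic

/-- One-step expectation operator. -/
noncomputable def T (a K : ℝ) (p : V × V) : (St V C → ℝ) →ₗ[ℝ] (St V C → ℝ) where
  toFun F s := ∑ o, w a K s p.1 p.2 o * F (step a K s p.1 p.2 o)
  map_add' F G := by
    ext s
    simp [mul_add, Finset.sum_add_distrib]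
  map_smul' r F := by
    ext s
    simp only [Pi.smul_apply, smul_eq_mul, RingHom.id_apply, Finset.mul_sum]
    refine Finset.sum_congr rfl fun o _ => by ring

theorem T_apply (a K : ℝ) (p : V × V) (F : St V C → ℝ) (s : St V C) :
    T a K p F s = ∑ o, w a K s p.1 p.2 o * F (step a K s p.1 p.2 o) := rfl

/-- Expectation operator after the arrival of a list of edges (first arrival first). -/
noncomputable def E (a K : ℝ) : List (V × V) → (St V C → ℝ) →ₗ[ℝ] (St V C → ℝ)
  | [] => LinearMap.id
  | p :: ps => (T a K p) ∘ₗ (E a K ps)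

theorem E_nil (a K : ℝ) (F : St V C → ℝ) : E a K [] F = F := rfl

theorem E_cons (a K : ℝ) (p : V × V) (ps : List (V × V)) (F : St V C → ℝ) :
    E a K (p :: ps) F = T a K p (E a K ps F) := rfl

theorem E_snoc (a K : ℝ) (ps : List (V × V)) (p : V × V) (F : St V C → ℝ) :
    E a K (ps ++ [p]) F = E a K ps (T a K p F) := by
  induction ps with
  | nil => rfl
  | cons q ps ih => rw [List.cons_append, E_cons, E_cons, ih]

theorem T_const (a K : ℝ) (p : V × V) (r : ℝ) :
    T a K p (fun _ => r) = (fun _ : St V C => r) := by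
  ext s
  rw [T_apply, ← Finset.sum_mul, w_sum, one_mul]

theorem E_const (a K : ℝ) (ps : List (V × V)) (r : ℝ) :
    E a K ps (fun _ => r) = (fun _ : St V C => r) := by
  induction ps with
  | nil => rfl
  | cons p ps ih => rw [E_cons, ih, T_const]

section mono

variable {a K : ℝ} (ha : 0 ≤ a) (haK : a * K ^ 2 ≤ 1 / 2)

include ha haK in
theorem E_mono (ps : List (V × V)) {F G : St V C → ℝ} (hFG : ∀ s, Inv a K s → F s ≤ G s)
    {s : St V C} (hs : Inv a K s) : E a K ps F s ≤ E a K ps G s := by
  induction ps generalizing s with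
  | nil => exact hFG s hs
  | cons p ps ih =>
    rw [E_cons, E_cons, T_apply, T_apply]
    exact Finset.sum_le_sum fun o _ =>
      mul_le_mul_of_nonneg_left (ih (hs.step ha haK o)) (w_nonneg ha hs o)

include ha haK in
theorem E_congr (ps : List (V × V)) {F G : St V C → ℝ} (hFG : ∀ s, Inv a K s → F s = G s)
    {s : St V C} (hs : Inv a K s) : E a K ps F s = E a K ps G s :=
  le_antisymm (E_mono ha haK ps (fun s hs => (hFG s hs).le) hs)
    (E_mono ha haK ps (fun s hs => (hFG s hs).ge) hs)

end mono

theorem T_of_const (a K : ℝ) (p : V × V) (A : Finset (Option C)) (F : St V C → ℝ) (s : St V C)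
    (F₀ : ℝ) (h : ∀ o ∉ A, F (step a K s p.1 p.2 o) = F₀) :
    T a K p F s = F₀ + ∑ o ∈ A, w a K s p.1 p.2 o * (F (step a K s p.1 p.2 o) - F₀) := by
  have h1 : T a K p F s = ∑ o, w a K s p.1 p.2 o * (F (step a K s p.1 p.2 o) - F₀)
      + (∑ o, w a K s p.1 p.2 o) * F₀ := by
    rw [T_apply, Finset.sum_mul, ← Finset.sum_add_distrib]
    exact Finset.sum_congr rfl fun o _ => by ring
  rw [h1, w_sum, one_mul, add_comm]
  congr 1
  symm
  refine Finset.sum_subset (Finset.subset_univ A) fun o _ ho => ?_
  rw [h o ho, sub_self, mul_zero]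

end Pool.Agent.N608.OEC
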