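import Pool.Agent.N608.OEC.Moments

/-!
Online partial edge colouring: the probability that an arriving edge is coloured.
-/

set_option linter.unusedSectionVars false

open Finset

namespace Pool.Agent.N608.OEC

variable {V C : Type*} [DecidableEq V] [Fintype C] [DecidableEq C]

/-- If the weight at an endpoint would exceed `K`, the counter is far from its mean. -/
theorem clip_dev {a K ε N x y Y D : ℝ} (hε : 0 < ε) (hε1 : ε ≤ 1 / 2) (hN : 0 < N)
    (hK : K = 2 / ε) (ha : a = (1 - ε) / N) (hx : 0 ≤ x) (hy : 0 ≤ y) (hxK : x ≤ K) (hyK : y ≤ K)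
    (haK : a * K ^ 2 ≤ 1 / 2)
    (hY : x * (1 - a * Y) ≤ 1) (hD : D ≤ N) (h : K * (1 - a * (x * y)) < x) :
    1 ≤ (Y + y - D) ^ 2 * (K ^ 2 / N ^ 2) := by
  have hK0 : 0 < K := by rw [hK]; positivity
  have ha0 : 0 ≤ a := by rw [ha]; exact div_nonneg (by linarith) hN.le
  have hxy : a * (x * y) ≤ 1 / 2 := by
    refine le_trans ?_ haK
    refine mul_le_mul_of_nonneg_left ?_ ha0
    rw [pow_two]
    exact mul_le_mul hxK hyK hy hK0.le
  have hx0 : 0 < x := by nlinarith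
  have h1 : K * (1 - a * (Y + y)) < 1 := by
    by_contra hcon
    push Not at hcon
    have h2 : x * 1 ≤ x * (K * (1 - a * (Y + y))) := mul_le_mul_of_nonneg_left hcon hx0.le
    nlinarith [mul_le_mul_of_nonneg_left hY hK0.le]
  have h3 : 1 - a * (Y + y) < ε / 2 := by
    rw [hK] at h1
    have : 2 / ε * (1 - a * (Y + y)) * (ε / 2) < 1 * (ε / 2) :=
      mul_lt_mul_of_pos_right h1 (by positivity)
    have e : 2 / ε * (1 - a * (Y + y)) * (ε / 2) = 1 - a * (Y + y) := by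
      field_simp
    linarith
  have h4 : (1 - ε / 2) * N < (1 - ε) * (Y + y) := by
    have e : a * (Y + y) = (1 - ε) * (Y + y) / N := by rw [ha]; ring
    have : 1 - ε / 2 < (1 - ε) * (Y + y) / N := by linarith
    rwa [lt_div_iff₀ hN] at this
  have h5 : (1 + ε / 2) * N < Y + y := by
    by_contra hcon
    push Not at hcon
    have h6 : (1 - ε) * (Y + y) ≤ (1 - ε) * ((1 + ε / 2) * N) :=
      mul_le_mul_of_nonneg_left hcon (by linarith)
    nlinarith [mul_pos hε hN, mul_pos (mul_pos hε hε) hN]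
  have h6 : N / K < Y + y - D := by
    have e : N / K = ε / 2 * N := by rw [hK]; field_simp
    rw [e]
    nlinarith
  have h7 : 0 < N / K := by positivity
  have h8 : (N / K) ^ 2 ≤ (Y + y - D) ^ 2 := by
    apply pow_le_pow_left₀ h7.le h6.le
  have h9 : (N / K) ^ 2 * (K ^ 2 / N ^ 2) = 1 := by
    field_simp
  calc (1 : ℝ) = (N / K) ^ 2 * (K ^ 2 / N ^ 2) := h9.symm
    _ ≤ _ := mul_le_mul_of_nonneg_right h8 (by positivity)

theorem clipZ_dev {a ε N Z : ℝ} (hε : 0 < ε) (hε1 : ε ≤ 1 / 2) (hN : 0 < N)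
    (ha : a = (1 - ε) / N) (h : 1 < a * Z) :
    1 ≤ (Z - N) ^ 2 * (1 / (ε * N) ^ 2) := by
  have h1 : N < (1 - ε) * Z := by
    have e : a * Z = (1 - ε) * Z / N := by rw [ha]; ring
    rw [e, lt_div_iff₀ hN, one_mul] at h
    exact h
  have h2 : (1 + ε) * N < Z := by
    by_contra hcon
    push Not at hcon
    have h3 : (1 - ε) * Z ≤ (1 - ε) * ((1 + ε) * N) :=
      mul_le_mul_of_nonneg_left hcon (by linarith)
    nlinarith [mul_pos (mul_pos hε hε) hN]
  have h3 : ε * N < Z - N := by linarith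
  have h4 : 0 < ε * N := by positivity
  have h5 : (ε * N) ^ 2 ≤ (Z - N) ^ 2 := pow_le_pow_left₀ h4.le h3.le 2
  have h6 : (ε * N) ^ 2 * (1 / (ε * N) ^ 2) = 1 := by field_simp
  calc (1 : ℝ) = (ε * N) ^ 2 * (1 / (ε * N) ^ 2) := h6.symm
    _ ≤ _ := mul_le_mul_of_nonneg_right h5 (by positivity)

/-- Pointwise lower bound for the probability of a colour. -/
theorem P_lower {a K ε N : ℝ} {s : St V C} {u v : V} {Du Dv : ℝ} (hε : 0 < ε) (hε1 : ε ≤ 1 / 2)
    (hN : 0 < N) (hK : K = 2 / ε) (ha : a = (1 - ε) / N) (haK : a * K ^ 2 ≤ 1 / 2)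
    (hs : Inv a K s) (hDu : Du ≤ N) (hDv : Dv ≤ N) (c : C) :
    a * (s.S u c * s.S v c) - a * K ^ 2 *
      ((s.Y u c + s.S v c - Du) ^ 2 * (K ^ 2 / N ^ 2) +
        (s.Y v c + s.S u c - Dv) ^ 2 * (K ^ 2 / N ^ 2) +
        (∑ c, s.S u c * s.S v c - N) ^ 2 * (1 / (ε * N) ^ 2)) ≤ P a K s u v c := by
  have ha0 : 0 ≤ a := by rw [ha]; exact div_nonneg (by linarith) hN.le
  have q1 : 0 ≤ (s.Y u c + s.S v c - Du) ^ 2 * (K ^ 2 / N ^ 2) := by positivity
  have q2 : 0 ≤ (s.Y v c + s.S u c - Dv) ^ 2 * (K ^ 2 / N ^ 2) := by positivity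
  have q3 : 0 ≤ (∑ c, s.S u c * s.S v c - N) ^ 2 * (1 / (ε * N) ^ 2) := by positivity
  have haK0 : 0 ≤ a * K ^ 2 := by positivity
  by_cases hc : (s.S u c ≤ K * (1 - raw a s u v c) ∧ s.S v c ≤ K * (1 - raw a s u v c)) ∧
    ∑ c', raw a s u v c' ≤ 1
  · have : P a K s u v c = a * (s.S u c * s.S v c) := by
      unfold P
      rw [if_pos hc]
      rfl
    rw [this]
    have := mul_nonneg haK0 (add_nonneg (add_nonneg q1 q2) q3)
    linarith
  · have : P a K s u v c = 0 := by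
      unfold P
      rw [if_neg hc]
    rw [this]
    have hr : a * (s.S u c * s.S v c) ≤ a * K ^ 2 := raw_le ha0 hs c
    have hq : 1 ≤ (s.Y u c + s.S v c - Du) ^ 2 * (K ^ 2 / N ^ 2) +
        (s.Y v c + s.S u c - Dv) ^ 2 * (K ^ 2 / N ^ 2) +
        (∑ c, s.S u c * s.S v c - N) ^ 2 * (1 / (ε * N) ^ 2) := by
      rw [not_and_or, not_and_or] at hc
      rcases hc with (hc | hc) | hc
      · push Not at hc
        have := clip_dev hε hε1 hN hK ha (hs.nn u c) (hs.nn v c) (hs.le u c) (hs.le v c) haK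
          (hs.y u c) hDu hc
        linarith
      · push Not at hc
        have hc' : K * (1 - a * (s.S v c * s.S u c)) < s.S v c := by
          rw [mul_comm (s.S v c) (s.S u c)]
          exact hc
        have := clip_dev hε hε1 hN hK ha (hs.nn v c) (hs.nn u c) (hs.le v c) (hs.le u c) haK
          (hs.y v c) hDv hc'
        linarith
      · push Not at hc
        have hc' : 1 < a * ∑ c, s.S u c * s.S v c := by
          rw [Finset.mul_sum]
          exact hc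
        have := clipZ_dev hε hε1 hN ha hc'
        linarith
    have := mul_le_mul_of_nonneg_left hq haK0
    linarith

/-- The second moment of the counter including the arriving edge. -/
theorem Ex_dev {a K : ℝ} (ha : 0 ≤ a) (haK : a * K ^ 2 ≤ 1 / 2) (hK : 1 ≤ K)
    {ps : List (V × V)} {p : V × V} (hps : Good (ps ++ [p])) {N : ℝ} (hN : 0 < N)
    (haN : a * N ≤ 1) (h1 : (dg p.1 (ps ++ [p]) : ℝ) ≤ N) (h2 : (dg p.2 (ps ++ [p]) : ℝ) ≤ N)
    (c : C) :
    E a K ps (fun s => (s.Y p.1 c + s.S p.2 c - dg p.1 (ps ++ [p])) ^ 2) (init V C)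
        ≤ 3 * K ^ 4 * N ∧
    E a K ps (fun s => (s.Y p.2 c + s.S p.1 c - dg p.2 (ps ++ [p])) ^ 2) (init V C)
        ≤ 3 * K ^ 4 * N := by
  obtain ⟨-, hp, -⟩ := hps.of_snoc
  have key : ∀ D : ℝ, 0 ≤ D → D ≤ N → 2 * a * K ^ 4 * D ^ 2 + K * D ≤ 3 * K ^ 4 * N := by
    intro D hD0 hD
    have hK4 : K ≤ K ^ 4 := by
      calc K = K ^ 1 := (pow_one K).symm
        _ ≤ K ^ 4 := pow_le_pow_right₀ hK (by norm_num)
    have h3 : D ^ 2 ≤ N ^ 2 := pow_le_pow_left₀ hD0 hD 2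
    have h4 : 2 * a * K ^ 4 * D ^ 2 ≤ 2 * a * K ^ 4 * N ^ 2 :=
      mul_le_mul_of_nonneg_left h3 (by positivity)
    have h5 : 2 * a * K ^ 4 * N ^ 2 = 2 * K ^ 4 * N * (a * N) := by ring
    have h6 : 2 * K ^ 4 * N * (a * N) ≤ 2 * K ^ 4 * N * 1 :=
      mul_le_mul_of_nonneg_left haN (by positivity)
    have h7 : K * D ≤ K ^ 4 * N := mul_le_mul hK4 hD hD0 (by positivity)
    linarith
  constructor
  · have h := Ex_YY ha haK hK (ps ++ [p]) hps p.1 c
    rw [E_snoc, E_congr ha haK ps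
      (G := (fun s : St V C => (s.Y p.1 c + s.S p.2 c - dg p.1 (ps ++ [p])) ^ 2)) _
      (inv_init hK)] at h
    · exact h.trans (key _ (Nat.cast_nonneg _) h1)
    · intro s hs
      rw [T_one c _ ((s.Y p.1 c + s.S p.2 c - dg p.1 (ps ++ [p])) ^ 2)
        ((s.Y p.1 c + s.S p.2 c - dg p.1 (ps ++ [p])) ^ 2)
        (fun o _ => by rw [step_Y_left]) (by rw [step_Y_left])]
      ring
  · have h := Ex_YY ha haK hK (ps ++ [p]) hps p.2 c
    rw [E_snoc, E_congr ha haK ps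
      (G := (fun s : St V C => (s.Y p.2 c + s.S p.1 c - dg p.2 (ps ++ [p])) ^ 2)) _
      (inv_init hK)] at h
    · exact h.trans (key _ (Nat.cast_nonneg _) h2)
    · intro s hs
      rw [T_one c _ ((s.Y p.2 c + s.S p.1 c - dg p.2 (ps ++ [p])) ^ 2)
        ((s.Y p.2 c + s.S p.1 c - dg p.2 (ps ++ [p])) ^ 2)
        (fun o _ => by rw [step_Y_right hp.symm]) (by rw [step_Y_right hp.symm])]
      ring

/-- Lower bound for the probability that the arriving edge is coloured. -/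
theorem main_bound {ε : ℝ} (hε : 0 < ε) (hε1 : ε ≤ 1 / 2) {a K N : ℝ}
    (hNc : N = Fintype.card C) (hN : 0 < N) (hK : K = 2 / ε) (ha : a = (1 - ε) / N)
    (haK : a * K ^ 2 ≤ 1 / 2) {ps : List (V × V)} {p : V × V} (hps : Good (ps ++ [p]))
    (h1 : (dg p.1 (ps ++ [p]) : ℝ) ≤ N) (h2 : (dg p.2 (ps ++ [p]) : ℝ) ≤ N) :
    1 - ε - 7 * K ^ 8 / N ≤ E a K ps (fun s => ∑ c, P a K s p.1 p.2 c) (init V C) := by
  have ha0 : 0 ≤ a := by rw [ha]; exact div_nonneg (by linarith) hN.le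
  have haN : a * N = 1 - ε := by rw [ha]; field_simp
  have haN1 : a * N ≤ 1 := by linarith
  have hK4 : 4 ≤ K := by
    rw [hK, le_div_iff₀ hε]; linarith
  have hK1 : 1 ≤ K := by linarith
  obtain ⟨hg, hp, hn⟩ := hps.of_snoc
  have hdev := fun c : C => Ex_dev ha0 haK hK1 hps hN haN1 h1 h2 c
  have hZ := Ex_Zvar (C := C) ha0 haK hK1 ps hp hn
  rw [← hNc] at hZ
  -- the lower function
  let F1 : C → St V C → ℝ := fun c s => s.S p.1 c * s.S p.2 c
  let G1 : C → St V C → ℝ := fun c s => (s.Y p.1 c + s.S p.2 c - dg p.1 (ps ++ [p])) ^ 2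
  let G2 : C → St V C → ℝ := fun c s => (s.Y p.2 c + s.S p.1 c - dg p.2 (ps ++ [p])) ^ 2
  let G3 : St V C → ℝ := fun s => (∑ c, s.S p.1 c * s.S p.2 c - N) ^ 2
  let L : St V C → ℝ := ∑ c, (a • F1 c - (a * K ^ 2) • ((K ^ 2 / N ^ 2) • G1 c +
    (K ^ 2 / N ^ 2) • G2 c + (1 / (ε * N) ^ 2) • G3))
  have hL : E a K ps L (init V C) ≤ E a K ps (fun s => ∑ c, P a K s p.1 p.2 c) (init V C) := by
    apply E_mono ha0 haK ps _ (inv_init hK1)
    intro s hs
    simp only [L, Finset.sum_apply]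
    refine Finset.sum_le_sum fun c _ => ?_
    have := P_lower (u := p.1) (v := p.2) hε hε1 hN hK ha haK hs h1 h2 c
    simp only [Pi.sub_apply, Pi.add_apply, Pi.smul_apply, smul_eq_mul, F1, G1, G2, G3]
    refine le_trans (le_of_eq ?_) this
    ring
  refine le_trans ?_ hL
  simp only [L, map_sum, Finset.sum_apply, map_sub, map_add, map_smul, Pi.sub_apply, Pi.add_apply,
    Pi.smul_apply, smul_eq_mul]
  have hc : ∀ c : C, a * 1 - a * K ^ 2 * ((K ^ 2 / N ^ 2) * (3 * K ^ 4 * N) +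
      (K ^ 2 / N ^ 2) * (3 * K ^ 4 * N) + (1 / (ε * N) ^ 2) * (K ^ 2 * N)) ≤
      a * E a K ps (F1 c) (init V C) - a * K ^ 2 * ((K ^ 2 / N ^ 2) * E a K ps (G1 c) (init V C) +
      (K ^ 2 / N ^ 2) * E a K ps (G2 c) (init V C) +
      (1 / (ε * N) ^ 2) * E a K ps G3 (init V C)) := by
    intro c
    have e1 : E a K ps (F1 c) (init V C) = 1 := Ex_SS ha0 haK hK1 ps hp hn c
    rw [e1]
    have e2 := (hdev c).1
    have e3 := (hdev c).2
    have f2 : (K ^ 2 / N ^ 2) * E a K ps (G1 c) (init V C) ≤ (K ^ 2 / N ^ 2) * (3 * K ^ 4 * N) :=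
      mul_le_mul_of_nonneg_left e2 (by positivity)
    have f3 : (K ^ 2 / N ^ 2) * E a K ps (G2 c) (init V C) ≤ (K ^ 2 / N ^ 2) * (3 * K ^ 4 * N) :=
      mul_le_mul_of_nonneg_left e3 (by positivity)
    have f4 : (1 / (ε * N) ^ 2) * E a K ps G3 (init V C) ≤ (1 / (ε * N) ^ 2) * (K ^ 2 * N) :=
      mul_le_mul_of_nonneg_left hZ (by positivity)
    have f5 : 0 ≤ a * K ^ 2 := by positivity
    have := mul_le_mul_of_nonneg_left (add_le_add (add_le_add f2 f3) f4) f5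
    linarith
  refine le_trans ?_ (Finset.sum_le_sum fun c _ => hc c)
  rw [Finset.sum_const, Finset.card_univ, nsmul_eq_mul, ← hNc]
  have e5 : (1 / (ε * N) ^ 2) * (K ^ 2 * N) = K ^ 4 / 4 / N := by
    have : ε = 2 / K := by rw [hK]; field_simp
    rw [this]
    field_simp
    ring
  have e6 : (K ^ 2 / N ^ 2) * (3 * K ^ 4 * N) = 3 * K ^ 6 / N := by
    field_simp
  rw [e5, e6]
  have e7 : N * (a * 1 - a * K ^ 2 * (3 * K ^ 6 / N + 3 * K ^ 6 / N + K ^ 4 / 4 / N))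
      = a * N - (a * N) * (6 * K ^ 8 + K ^ 6 / 4) / N := by
    field_simp
    ring
  rw [e7, haN]
  have e8 : (1 - ε) * (6 * K ^ 8 + K ^ 6 / 4) ≤ 7 * K ^ 8 := by
    have g1 : K ^ 6 ≤ K ^ 8 := pow_le_pow_right₀ hK1 (by norm_num)
    have g2 : 0 ≤ 6 * K ^ 8 + K ^ 6 / 4 := by positivity
    have g3 : (1 - ε) * (6 * K ^ 8 + K ^ 6 / 4) ≤ 1 * (6 * K ^ 8 + K ^ 6 / 4) :=
      mul_le_mul_of_nonneg_right (by linarith) g2
    have g4 : 0 ≤ K ^ 6 := by positivity
    linarith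
  have e9 := div_le_div_of_nonneg_right e8 hN.le
  linarith

end Pool.Agent.N608.OEC
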