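import Pool.Agent.N608.OEC.Algo

/-!
The online algorithm for arbitrary simple graphs, and the values `p(Δ, L)`.
-/

set_option linter.unusedSectionVars false

open Finset Filter Topology
open scoped ENNReal

namespace Pool.Agent.N608.OEC

section degree

variable {V : Type} [DecidableEq V] {Δ : ℕ}

theorem dg_map_rep (x : V) (l : List (Sym2 V)) :
    dg x (l.map rep) = l.countP fun e => decide (x ∈ e) := by
  unfold dg
  rw [List.countP_map]
  congr 1
  ext e
  simp [mem_rep]

theorem countP_le_ncard [Finite V] {G : SimpleGraph V} {l : List (Sym2 V)} (hl : l.Nodup)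
    (hm : ∀ e ∈ l, e ∈ G.edgeSet) (x : V) :
    (l.countP fun e => decide (x ∈ e)) ≤ (G.neighborSet x).ncard := by
  rw [List.countP_eq_length_filter]
  have hnd : (l.filter fun e => decide (x ∈ e)).Nodup := hl.filter _
  rw [← List.toFinset_card_of_nodup hnd]
  have e1 : (G.neighborSet x).ncard = (G.incidenceSet x).ncard := by
    rw [← Nat.card_coe_set_eq, ← Nat.card_coe_set_eq]
    exact Nat.card_congr (G.incidenceSetEquivNeighborSet x).symm
  rw [e1, ← Set.ncard_coe_finset]
  apply Set.ncard_le_ncard _ (Set.toFinite _)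
  intro e he
  rw [Finset.mem_coe, List.mem_toFinset, List.mem_filter] at he
  exact ⟨hm e he.1, by simpa using he.2⟩

theorem good_map_rep {G : SimpleGraph V} {l : List (Sym2 V)} (hl : l.Nodup)
    (hm : ∀ e ∈ l, e ∈ G.edgeSet) : Good (l.map rep) := by
  constructor
  · rw [List.map_map]
    have : (ue ∘ rep : Sym2 V → Sym2 V) = id := by
      ext1 e
      exact ue_rep e
    rw [this, List.map_id]
    exact hl
  · intro p hp
    rw [List.mem_map] at hp
    obtain ⟨e, he, rfl⟩ := hp
    have h1 := hm e he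
    rw [← ue_rep e, ue, SimpleGraph.mem_edgeSet] at h1
    exact h1.ne

end degree

/-- The algorithm that never colours. -/
noncomputable def never (V : Type) (Δ : ℕ) : Alg V Δ := fun _ _ => PMF.pure none

theorem never_proper {V : Type} {Δ : ℕ} (es : List (Sym2 V)) (h0 : Hist V Δ)
    (hh0 : ∀ (e : Sym2 V) (c : Fin Δ), (e, some c) ∉ h0) (h : Hist V Δ)
    (hh : h ∈ (runFrom (never V Δ) es h0).support) :
    ∀ (e : Sym2 V) (c : Fin Δ), (e, some c) ∉ h := by
  induction es generalizing h0 with
  | nil =>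
    rw [runFrom, PMF.mem_support_pure_iff] at hh
    rw [hh]; exact hh0
  | cons f es ih =>
    rw [runFrom, PMF.mem_support_bind_iff] at hh
    obtain ⟨o, ho, hh⟩ := hh
    rw [never, PMF.mem_support_pure_iff] at ho
    subst ho
    refine ih _ ?_ hh
    intro e c hm
    rw [List.mem_cons] at hm
    rcases hm with hm | hm
    · exact absurd (Prod.ext_iff.1 hm).2 (by simp)
    · exact hh0 _ _ hm

/-- For every vertex set, every number of colours `Δ` and every `ε` there is an online algorithm
that always produces a proper partial colouring and colours every edge of every simple graph of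
maximum degree at most `Δ` with probability at least `1 - ε - 1792 / (ε ^ 8 * Δ)`. -/
theorem exists_alg (V : Type) [Finite V] (Δ : ℕ) (hΔ : 1 ≤ Δ) (ε : ℝ) (hε : 0 < ε)
    (hε1 : ε ≤ 1 / 2) :
    ∃ A : Alg V Δ, (∀ es, ∀ h ∈ (run A es).support, ProperHist h) ∧
      ∀ G : SimpleGraph V, (∀ v, (G.neighborSet v).ncard ≤ Δ) → ∀ es, IsOrder G es → ∀ e ∈ es,
        ENNReal.ofReal (1 - ε - 1792 / (ε ^ 8 * Δ)) ≤ probColoured A es e := by
  classical
  have hΔ0 : (0 : ℝ) < Δ := by exact_mod_cast hΔ
  set a : ℝ := (1 - ε) / Δ with ha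
  set K : ℝ := 2 / ε with hK
  have ha0 : 0 ≤ a := div_nonneg (by linarith) hΔ0.le
  have hK1 : 1 ≤ K := by
    rw [hK, le_div_iff₀ hε]; linarith
  have hK8 : 7 * K ^ 8 / Δ = 1792 / (ε ^ 8 * Δ) := by
    rw [hK]
    field_simp
    norm_num
  by_cases haK : a * K ^ 2 ≤ 1 / 2
  · refine ⟨alg ha0 haK hK1, ?_, ?_⟩
    · intro es h hh
      exact proper_runFrom ha0 haK hK1 es [] (by intro e f c he; simp at he)
        (by intro e c he; simp at he) h hh
    · intro G hG es hes e he
      obtain ⟨pre, post, rfl⟩ := List.append_of_mem he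
      have hnd : (pre ++ [e]).Nodup := by
        refine hes.1.sublist ?_
        exact List.Sublist.append (List.Sublist.refl _) (by simp)
      have hmem : ∀ f ∈ pre ++ [e], f ∈ G.edgeSet := by
        intro f hf
        apply (hes.2 f).1
        rw [List.mem_append, List.mem_singleton] at hf
        rcases hf with hf | hf
        · exact List.mem_append_left _ hf
        · rw [hf]; exact List.mem_append_right _ List.mem_cons_self
      have hgood : Good (pre.map rep ++ [rep e]) := by
        have := good_map_rep hnd hmem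
        rwa [List.map_append, List.map_singleton] at this
      have hdeg : ∀ x, (dg x (pre.map rep ++ [rep e]) : ℝ) ≤ Δ := by
        intro x
        have h1 := countP_le_ncard hnd hmem x
        rw [← dg_map_rep, List.map_append, List.map_singleton] at h1
        exact_mod_cast h1.trans (hG x)
      have hb := main_bound (C := Fin Δ) hε hε1 (N := (Δ : ℝ)) (by simp) hΔ0 hK ha haK hgood
        (hdeg _) (hdeg _)
      rw [hK8] at hb
      exact (ENNReal.ofReal_le_ofReal hb).trans (prob_ge ha0 haK hK1 pre post e [])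
  · refine ⟨never V Δ, ?_, ?_⟩
    · intro es h hh e f c he
      exact absurd he (never_proper es [] (by simp) h hh e c)
    · intro G hG es hes e he
      have hneg : 1 - ε - 1792 / (ε ^ 8 * Δ) ≤ 0 := by
        push Not at haK
        have h1 : (Δ : ℝ) < 8 / ε ^ 2 := by
          have e1 : a * K ^ 2 = (1 - ε) * 4 / ε ^ 2 / Δ := by
            rw [ha, hK]
            field_simp
            ring
          rw [e1, lt_div_iff₀ hΔ0] at haK
          have : (1 - ε) * 4 / ε ^ 2 ≤ 4 / ε ^ 2 :=
            div_le_div_of_nonneg_right (by linarith) (by positivity)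
          have e2 : 8 / ε ^ 2 = 2 * (4 / ε ^ 2) := by ring
          rw [e2]
          linarith
        have h2 : ε ^ 8 * Δ ≤ 1792 := by
          have h3 : ε ^ 8 * Δ ≤ ε ^ 8 * (8 / ε ^ 2) :=
            mul_le_mul_of_nonneg_left h1.le (by positivity)
          have e3 : ε ^ 8 * (8 / ε ^ 2) = 8 * ε ^ 6 := by
            field_simp
          have h4 : ε ^ 6 ≤ 1 := pow_le_one₀ hε.le (by linarith)
          linarith
        have h5 : 1 ≤ 1792 / (ε ^ 8 * Δ) := by
          rw [le_div_iff₀ (by positivity)]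
          linarith
        linarith
      rw [ENNReal.ofReal_of_nonpos hneg]
      exact zero_le

/-- The rate. -/
theorem pp_lower (Δ : ℕ) (hΔ : 1 ≤ Δ) (L : ℕ) :
    ENNReal.ofReal (1 - 1793 * (Δ : ℝ) ^ (-(1 / 9) : ℝ)) ≤ pp Δ L := by
  have hΔ0 : (0 : ℝ) < Δ := by exact_mod_cast hΔ
  set ε : ℝ := (Δ : ℝ) ^ (-(1 / 9) : ℝ) with hεdef
  have hε : 0 < ε := Real.rpow_pos_of_pos hΔ0 _
  by_cases hε1 : ε ≤ 1 / 2
  · have hε9 : ε ^ 8 * Δ = 1 / ε := by
      have h1 : ε ^ 8 = (Δ : ℝ) ^ (-(8 / 9) : ℝ) := by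
        rw [hεdef, ← Real.rpow_natCast, ← Real.rpow_mul hΔ0.le]
        norm_num
      have h2 : 1 / ε = (Δ : ℝ) ^ ((1 / 9) : ℝ) := by
        rw [hεdef, one_div, ← Real.rpow_neg hΔ0.le]
        norm_num
      rw [h1, h2]
      nth_rewrite 2 [← Real.rpow_one (Δ : ℝ)]
      rw [← Real.rpow_add hΔ0]
      norm_num
    have hval : 1 - ε - 1792 / (ε ^ 8 * Δ) = 1 - 1793 * ε := by
      rw [hε9]
      field_simp
      ring
    choose A hA1 hA2 using fun n : ℕ => exists_alg (Fin n) Δ hΔ ε hε hε1
    unfold pp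
    refine le_iSup₂_of_le A ?_ ?_
    · intro n G hG es hes h hh
      exact hA1 n es h hh
    · unfold qA
      refine le_iInf fun n => le_iInf fun G => le_iInf fun hG => le_iInf fun es =>
        le_iInf fun hes => le_iInf fun e => le_iInf fun he => ?_
      have := hA2 n G hG.1 es hes e he
      rwa [hval] at this
  · have : 1 - 1793 * ε ≤ 0 := by linarith
    rw [ENNReal.ofReal_of_nonpos this]
    exact zero_le

theorem prob_le_one {V : Type} {Δ : ℕ} (A : Alg V Δ) (es : List (Sym2 V)) (e : Sym2 V) :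
    probColoured A es e ≤ 1 := by
  unfold probColoured
  calc (run A es).toOuterMeasure _ ≤ (run A es).toOuterMeasure Set.univ :=
        (run A es).toOuterMeasure.mono (Set.subset_univ _)
    _ = 1 := by
        rw [PMF.toOuterMeasure_apply_eq_one_iff]
        exact Set.subset_univ _

theorem pp_le_one (Δ : ℕ) (hΔ : 1 ≤ Δ) (L : ℕ) : pp Δ L ≤ 1 := by
  unfold pp
  refine iSup₂_le fun A _ => ?_
  unfold qA
  have hacyc : (⊤ : SimpleGraph (Fin 2)).IsAcyclic := by
    intro v c hc
    have h1 := hc.isPath_tail.length_lt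
    have h2 := hc.three_le_length
    have h3 := c.length_tail_add_one hc.not_nil
    simp at h1
    omega
  have hcl : InClass Δ L (⊤ : SimpleGraph (Fin 2)) := by
    refine ⟨fun v => ?_, ?_⟩
    · refine le_trans ?_ hΔ
      have h1 : (⊤ : SimpleGraph (Fin 2)).neighborSet v ⊆ {1 - v} := by
        intro z hz
        rw [SimpleGraph.mem_neighborSet, SimpleGraph.top_adj] at hz
        rw [Set.mem_singleton_iff]
        fin_cases v <;> fin_cases z <;> simp_all
      exact (Set.ncard_le_ncard h1 (Set.toFinite _)).trans (by simp)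
    · rw [hacyc.egirth_eq_top]
      exact le_top
  have hord : IsOrder (⊤ : SimpleGraph (Fin 2)) [s(0, 1)] := by
    refine ⟨List.nodup_singleton _, fun e => ?_⟩
    rw [List.mem_singleton]
    induction e with
    | h x y =>
      rw [SimpleGraph.mem_edgeSet, SimpleGraph.top_adj]
      fin_cases x <;> fin_cases y <;> simp
  refine (iInf_le_of_le 2 <| iInf_le_of_le ⊤ <| iInf_le_of_le hcl <|
    iInf_le_of_le [s(0, 1)] <| iInf_le_of_le hord <| iInf_le_of_le s(0, 1) <|
    iInf_le_of_le (List.mem_singleton_self _) ?_)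
  exact prob_le_one _ _ _

theorem tendsto_pp :
    Tendsto (fun Δ : ℕ => ⨆ (L : ℕ) (_ : 3 ≤ L), pp Δ L) atTop (𝓝 1) := by
  have h1 : Tendsto (fun Δ : ℕ => ENNReal.ofReal (1 - 1793 * (Δ : ℝ) ^ (-(1 / 9) : ℝ))) atTop
      (𝓝 1) := by
    have h2 : Tendsto (fun Δ : ℕ => 1 - 1793 * (Δ : ℝ) ^ (-(1 / 9) : ℝ)) atTop (𝓝 1) := by
      have h3 : Tendsto (fun Δ : ℕ => (Δ : ℝ) ^ (-(1 / 9) : ℝ)) atTop (𝓝 0) :=
        (tendsto_rpow_neg_atTop (by norm_num : (0 : ℝ) < 1 / 9)).comp tendsto_natCast_atTop_atTop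
      have h4 := (h3.const_mul 1793).const_sub 1
      simpa using h4
    have := ENNReal.tendsto_ofReal h2
    rwa [ENNReal.ofReal_one] at this
  refine tendsto_of_tendsto_of_tendsto_of_le_of_le' h1 tendsto_const_nhds ?_ ?_
  · filter_upwards [eventually_ge_atTop 1] with Δ hΔ
    exact (pp_lower Δ hΔ 3).trans (le_iSup₂ (f := fun L (_ : 3 ≤ L) => pp Δ L) 3 le_rfl)
  · filter_upwards [eventually_ge_atTop 1] with Δ hΔ
    exact iSup₂_le fun L _ => pp_le_one Δ hΔ L

end Pool.Agent.N608.OEC
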