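import Pool.Agent.N608.OEC.Bound

/-!
The model of randomised online partial edge colouring against an oblivious adversary.
-/

open scoped ENNReal

namespace Pool.Agent.N608.OEC

/-- A history: the edges that have arrived together with the irrevocable decision taken for each
(`some c`: coloured with `c`, `none`: left uncoloured), latest arrival first. -/
abbrev Hist (V : Type) (Δ : ℕ) := List (Sym2 V × Option (Fin Δ))

/-- A randomised online algorithm on the vertex set `V` with `Δ` colours: given the history and the
arriving edge, the law of the decision. -/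
abbrev Alg (V : Type) (Δ : ℕ) := Hist V Δ → Sym2 V → PMF (Option (Fin Δ))

/-- The law of the history after the edges of a list have arrived in this order, starting from a
given history. -/
noncomputable def runFrom {V : Type} {Δ : ℕ} (A : Alg V Δ) : List (Sym2 V) → Hist V Δ →
    PMF (Hist V Δ)
  | [], h => PMF.pure h
  | e :: es, h => (A h e).bind fun o => runFrom A es ((e, o) :: h)

/-- The law of the final history when the edges arrive in the order `es`. -/
noncomputable def run {V : Type} {Δ : ℕ} (A : Alg V Δ) (es : List (Sym2 V)) : PMF (Hist V Δ) :=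
  runFrom A es []

/-- The coloured edges of the history form a proper partial edge colouring. -/
def ProperHist {V : Type} {Δ : ℕ} (h : Hist V Δ) : Prop :=
  ∀ (e f : Sym2 V) (c : Fin Δ), (e, some c) ∈ h → (f, some c) ∈ h → e ≠ f → ∀ v, v ∈ e → v ∉ f

/-- The probability that the edge `e` is coloured when the edges arrive in the order `es`. -/
noncomputable def probColoured {V : Type} {Δ : ℕ} (A : Alg V Δ) (es : List (Sym2 V))
    (e : Sym2 V) : ℝ≥0∞ :=
  (run A es).toOuterMeasure {h | ∃ c : Fin Δ, (e, some c) ∈ h}

/-- The graphs of maximum degree at most `Δ` and girth at least `L`. -/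
def InClass (Δ L : ℕ) {V : Type} (G : SimpleGraph V) : Prop :=
  (∀ v, (G.neighborSet v).ncard ≤ Δ) ∧ (L : ℕ∞) ≤ G.egirth

/-- `es` is an ordering of the edge set of `G`. -/
def IsOrder {V : Type} (G : SimpleGraph V) (es : List (Sym2 V)) : Prop :=
  es.Nodup ∧ ∀ e, e ∈ es ↔ e ∈ G.edgeSet

/-- `A` (one algorithm for each vertex set `Fin n`) always produces proper partial edge
colourings on the graphs of maximum degree at most `Δ` and girth at least `L`. -/
def Valid (Δ L : ℕ) (A : ∀ n : ℕ, Alg (Fin n) Δ) : Prop :=
  ∀ (n : ℕ) (G : SimpleGraph (Fin n)), InClass Δ L G → ∀ es, IsOrder G es →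
    ∀ h ∈ (run (A n) es).support, ProperHist h

/-- `q_A(Δ, L)`: the infimum over the graphs of the class, the arrival orders and the edges of the
probability that the edge is coloured. -/
noncomputable def qA (Δ L : ℕ) (A : ∀ n : ℕ, Alg (Fin n) Δ) : ℝ≥0∞ :=
  ⨅ (n : ℕ) (G : SimpleGraph (Fin n)) (_ : InClass Δ L G) (es : List (Sym2 (Fin n)))
    (_ : IsOrder G es) (e : Sym2 (Fin n)) (_ : e ∈ es), probColoured (A n) es e

/-- `p(Δ, L)`: the supremum of `q_A(Δ, L)` over the online algorithms. -/
noncomputable def pp (Δ L : ℕ) : ℝ≥0∞ :=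
  ⨆ (A : ∀ n : ℕ, Alg (Fin n) Δ) (_ : Valid Δ L A), qA Δ L A

end Pool.Agent.N608.OEC
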