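import Pool.Agent.N608.OEC.Basic

/-!
Online partial edge colouring: first and second moments of the weights and counters.
-/

set_option linter.unusedSectionVars false

open Finset

namespace Pool.Agent.N608.OEC

variable {V C : Type*} [DecidableEq V] [Fintype C] [DecidableEq C]

section steps

variable {a K : ℝ} {s : St V C} {u v x : V} {c : C} {o : Option C}

theorem step_S_not (hx : ¬(x = u ∨ x = v)) : (step a K s u v o).S x c = s.S x c := by
  simp only [step, if_neg hx]

theorem step_S_ne (hx : x = u ∨ x = v) (ho : o ≠ some c) :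
    (step a K s u v o).S x c = s.S x c / (1 - P a K s u v c) := by
  simp only [step, if_pos hx, if_neg ho]

theorem step_S_eq (hx : x = u ∨ x = v) : (step a K s u v (some c)).S x c = 0 := by
  simp only [step, if_pos hx, if_true]

theorem step_Y_left : (step a K s u v o).Y u c = s.Y u c + s.S v c := by
  simp only [step, if_true]

theorem step_Y_right (h : v ≠ u) : (step a K s u v o).Y v c = s.Y v c + s.S u c := by
  simp only [step, if_neg h, if_true]

theorem step_Y_not (hx : ¬(x = u ∨ x = v)) : (step a K s u v o).Y x c = s.Y x c := by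
  push Not at hx
  simp only [step, if_neg hx.1, if_neg hx.2]

end steps

/-- The unordered pair of an ordered pair. -/
abbrev ue (p : V × V) : Sym2 V := s(p.1, p.2)

/-- Number of arrived edges at `x`. -/
def dg (x : V) (ps : List (V × V)) : ℕ := ps.countP fun p => decide (x = p.1 ∨ x = p.2)

theorem dg_nil (x : V) : dg x [] = 0 := rfl

theorem dg_snoc_pos {x : V} {ps : List (V × V)} {p : V × V} (h : x = p.1 ∨ x = p.2) :
    dg x (ps ++ [p]) = dg x ps + 1 := by
  simp [dg, List.countP_append, h]

theorem dg_snoc_neg {x : V} {ps : List (V × V)} {p : V × V} (h : ¬(x = p.1 ∨ x = p.2)) :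
    dg x (ps ++ [p]) = dg x ps := by
  simp [dg, List.countP_append, h]

/-- Lists of distinct edges without loops. -/
def Good (ps : List (V × V)) : Prop := (ps.map ue).Nodup ∧ ∀ p ∈ ps, p.1 ≠ p.2

theorem Good.of_snoc {ps : List (V × V)} {p : V × V} (h : Good (ps ++ [p])) :
    Good ps ∧ p.1 ≠ p.2 ∧ ue p ∉ ps.map ue := by
  obtain ⟨h1, h2⟩ := h
  rw [List.map_append, List.map_singleton, List.nodup_append] at h1
  refine ⟨⟨h1.1, fun q hq => h2 q (List.mem_append_left _ hq)⟩,
    h2 p (List.mem_append_right _ (List.mem_singleton_self p)), fun hm => ?_⟩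
  exact h1.2.2 _ hm _ (List.mem_singleton_self _) rfl

theorem other {p : V × V} {x : V} (hp : p.1 ≠ p.2) (hx : x = p.1 ∨ x = p.2) :
    ∃ z, z ≠ x ∧ ue p = s(x, z) ∧
      ∀ (a K : ℝ) (s : St V C) (o : Option C) (c : C),
        (step a K s p.1 p.2 o).Y x c = s.Y x c + s.S z c := by
  rcases hx with rfl | rfl
  · exact ⟨p.2, hp.symm, rfl, fun a K s o c => step_Y_left⟩
  · exact ⟨p.1, hp, Sym2.eq_swap, fun a K s o c => step_Y_right hp.symm⟩

section oneStep

variable {a K : ℝ} {s : St V C} {p : V × V}

theorem T_one (c : C) (F : St V C → ℝ) (F₀ F₁ : ℝ)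
    (h0 : ∀ o, o ≠ some c → F (step a K s p.1 p.2 o) = F₀)
    (h1 : F (step a K s p.1 p.2 (some c)) = F₁) :
    T a K p F s = (1 - P a K s p.1 p.2 c) * F₀ + P a K s p.1 p.2 c * F₁ := by
  rw [T_of_const a K p {some c} F s F₀ (by
    intro o ho
    exact h0 o (by simpa using ho))]
  rw [Finset.sum_singleton, h1]
  simp only [w]
  ring

theorem T_two {c c' : C} (hc : c ≠ c') (F : St V C → ℝ) (F₀ F₁ F₂ : ℝ)
    (h0 : ∀ o, o ≠ some c → o ≠ some c' → F (step a K s p.1 p.2 o) = F₀)
    (h1 : F (step a K s p.1 p.2 (some c)) = F₁)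
    (h2 : F (step a K s p.1 p.2 (some c')) = F₂) :
    T a K p F s = (1 - P a K s p.1 p.2 c - P a K s p.1 p.2 c') * F₀ + P a K s p.1 p.2 c * F₁
      + P a K s p.1 p.2 c' * F₂ := by
  rw [T_of_const a K p {some c, some c'} F s F₀ (by
    intro o ho
    simp only [Finset.mem_insert, Finset.mem_singleton, not_or] at ho
    exact h0 o ho.1 ho.2)]
  rw [Finset.sum_pair (by simpa using hc), h1, h2]
  simp only [w]
  ring

variable (ha : 0 ≤ a) (haK : a * K ^ 2 ≤ 1 / 2)

include ha haK

theorem P_lt_one (hs : Inv a K s) (c : C) : 0 < 1 - P a K s p.1 p.2 c := by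
  have := (P_le ha hs c (u := p.1) (v := p.2)).trans haK
  linarith

theorem T_S (hs : Inv a K s) (x : V) (c : C) : T a K p (fun s => s.S x c) s = s.S x c := by
  have hP := P_lt_one ha haK hs c (p := p)
  by_cases hx : x = p.1 ∨ x = p.2
  · rw [T_one c (fun s : St V C => s.S x c) (s.S x c / (1 - P a K s p.1 p.2 c)) 0
      (fun o ho => step_S_ne hx ho) (step_S_eq hx)]
    field_simp
    ring
  · rw [T_one c (fun s : St V C => s.S x c) (s.S x c) (s.S x c) (fun o ho => step_S_not hx)
      (step_S_not hx)]
    ring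

theorem T_SS (hs : Inv a K s) {x y : V} (hxy : x ≠ y) (hp : ue p ≠ s(x, y)) (c : C) :
    T a K p (fun s => s.S x c * s.S y c) s = s.S x c * s.S y c := by
  have hP := P_lt_one ha haK hs c (p := p)
  by_cases hx : x = p.1 ∨ x = p.2
  · have hy : ¬ (y = p.1 ∨ y = p.2) := by
      rintro hy
      apply hp
      rcases hx with rfl | rfl
      · rcases hy with rfl | rfl
        · exact absurd rfl hxy
        · rfl
      · rcases hy with rfl | rfl
        · exact Sym2.eq_swap
        · exact absurd rfl hxy
    rw [T_one c _ (s.S x c / (1 - P a K s p.1 p.2 c) * s.S y c) 0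
      (fun o ho => by rw [step_S_ne hx ho, step_S_not hy]) (by rw [step_S_eq hx, zero_mul])]
    field_simp
    ring
  · by_cases hy : y = p.1 ∨ y = p.2
    · rw [T_one c _ (s.S x c * (s.S y c / (1 - P a K s p.1 p.2 c))) 0
        (fun o ho => by rw [step_S_ne hy ho, step_S_not hx]) (by rw [step_S_eq hy, mul_zero])]
      field_simp
      ring
    · rw [T_one c _ (s.S x c * s.S y c) (s.S x c * s.S y c)
        (fun o ho => by rw [step_S_not hx, step_S_not hy])
        (by rw [step_S_not hx, step_S_not hy])]
      ring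

theorem T_SS_le (hK : 1 ≤ K) (hs : Inv a K s) {x y : V} (hxy : x ≠ y) (c : C) :
    T a K p (fun s => s.S x c * s.S y c) s ≤ s.S x c * s.S y c + 2 * a * K ^ 4 := by
  have hP := P_lt_one ha haK hs c (p := p)
  have hκ : 0 ≤ 2 * a * K ^ 4 := by positivity
  by_cases hx : x = p.1 ∨ x = p.2
  · by_cases hy : y = p.1 ∨ y = p.2
    · rw [T_one c _ (s.S x c / (1 - P a K s p.1 p.2 c) * (s.S y c / (1 - P a K s p.1 p.2 c))) 0
        (fun o ho => by rw [step_S_ne hx ho, step_S_ne hy ho])
        (by rw [step_S_eq hx, zero_mul])]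
      have h1 : (1 - P a K s p.1 p.2 c) * (s.S x c / (1 - P a K s p.1 p.2 c) *
          (s.S y c / (1 - P a K s p.1 p.2 c))) + P a K s p.1 p.2 c * 0
          = (s.S x c * s.S y c) / (1 - P a K s p.1 p.2 c) := by
        field_simp
        ring
      rw [h1, div_le_iff₀ hP]
      have hP0 := P_nonneg ha hs c (u := p.1) (v := p.2)
      have hPa := P_le ha hs c (u := p.1) (v := p.2)
      have hPh := hPa.trans haK
      have hm0 : 0 ≤ s.S x c * s.S y c := mul_nonneg (hs.nn _ _) (hs.nn _ _)
      have hm : s.S x c * s.S y c ≤ K ^ 2 := by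
        rw [pow_two]
        exact mul_le_mul (hs.le _ _) (hs.le _ _) (hs.nn _ _) (by linarith)
      have h2 : s.S x c * s.S y c * P a K s p.1 p.2 c ≤ K ^ 2 * (a * K ^ 2) :=
        mul_le_mul hm hPa hP0 (by positivity)
      have h3 : K ^ 2 * (a * K ^ 2) = a * K ^ 4 := by ring
      have h4 : a * K ^ 4 ≤ 2 * a * K ^ 4 * (1 - P a K s p.1 p.2 c) := by
        have : 0 ≤ a * K ^ 4 := by positivity
        nlinarith
      nlinarith
    · rw [T_SS ha haK hs hxy (by
        intro h
        rcases hx with rfl | rfl
        · rw [ue, Sym2.eq_iff] at h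
          rcases h with h | h
          · exact hy (Or.inr h.2.symm)
          · exact hy (Or.inl h.1.symm)
        · rw [ue, Sym2.eq_iff] at h
          rcases h with h | h
          · exact hxy h.2
          · exact hy (Or.inl h.1.symm)) c]
      linarith
  · rw [T_SS ha haK hs hxy (by
        intro h
        rw [ue, Sym2.eq_iff] at h
        rcases h with h | h
        · exact hx (Or.inl h.1.symm)
        · exact hx (Or.inr h.2.symm)) c]
    linarith

theorem T_SSSS (hs : Inv a K s) {x y : V} (hxy : x ≠ y) (hp : ue p ≠ s(x, y)) {c c' : C}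
    (hc : c ≠ c') :
    T a K p (fun s => (s.S x c * s.S y c) * (s.S x c' * s.S y c')) s
      ≤ (s.S x c * s.S y c) * (s.S x c' * s.S y c') := by
  have key : ∀ z t : V, (z = p.1 ∨ z = p.2) → ¬ (t = p.1 ∨ t = p.2) →
      T a K p (fun s => (s.S z c * s.S t c) * (s.S z c' * s.S t c')) s
      ≤ (s.S z c * s.S t c) * (s.S z c' * s.S t c') := by
    intro z t hz ht
    have hP := P_lt_one ha haK hs c (p := p)
    have hP' := P_lt_one ha haK hs c' (p := p)
    have hP0 := P_nonneg ha hs c (u := p.1) (v := p.2)
    have hP0' := P_nonneg ha hs c' (u := p.1) (v := p.2)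
    rw [T_two hc _ ((s.S z c / (1 - P a K s p.1 p.2 c) * s.S t c) *
      (s.S z c' / (1 - P a K s p.1 p.2 c') * s.S t c')) 0 0
      (fun o ho ho' => by rw [step_S_ne hz ho, step_S_ne hz ho', step_S_not ht, step_S_not ht])
      (by rw [step_S_eq hz]; ring) (by rw [step_S_eq (c := c') hz]; ring)]
    have hm : 0 ≤ (s.S z c * s.S t c) * (s.S z c' * s.S t c') :=
      mul_nonneg (mul_nonneg (hs.nn _ _) (hs.nn _ _)) (mul_nonneg (hs.nn _ _) (hs.nn _ _))
    have e1 : (1 - P a K s p.1 p.2 c - P a K s p.1 p.2 c') *
        ((s.S z c / (1 - P a K s p.1 p.2 c) * s.S t c) *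
        (s.S z c' / (1 - P a K s p.1 p.2 c') * s.S t c')) + P a K s p.1 p.2 c * 0
        + P a K s p.1 p.2 c' * 0
        = ((s.S z c * s.S t c) * (s.S z c' * s.S t c')) *
          (1 - P a K s p.1 p.2 c - P a K s p.1 p.2 c') /
            ((1 - P a K s p.1 p.2 c) * (1 - P a K s p.1 p.2 c')) := by
      field_simp
      ring
    rw [e1, div_le_iff₀ (mul_pos hP hP')]
    apply mul_le_mul_of_nonneg_left _ hm
    nlinarith [mul_nonneg hP0 hP0']
  by_cases hx : x = p.1 ∨ x = p.2
  · have hy : ¬ (y = p.1 ∨ y = p.2) := by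
      rintro hy
      apply hp
      rcases hx with rfl | rfl
      · rcases hy with rfl | rfl
        · exact absurd rfl hxy
        · rfl
      · rcases hy with rfl | rfl
        · exact Sym2.eq_swap
        · exact absurd rfl hxy
    exact key x y hx hy
  · by_cases hy : y = p.1 ∨ y = p.2
    · have := key y x hy hx
      have e : (fun s : St V C => (s.S x c * s.S y c) * (s.S x c' * s.S y c'))
          = fun s : St V C => (s.S y c * s.S x c) * (s.S y c' * s.S x c') := by
        ext s; ring
      rw [e]
      refine this.trans (le_of_eq (by ring))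
    · rw [T_two hc _ ((s.S x c * s.S y c) * (s.S x c' * s.S y c'))
        ((s.S x c * s.S y c) * (s.S x c' * s.S y c'))
        ((s.S x c * s.S y c) * (s.S x c' * s.S y c'))
        (fun o ho ho' => by simp only [step_S_not hx, step_S_not hy])
        (by simp only [step_S_not hx, step_S_not hy])
        (by simp only [step_S_not hx, step_S_not hy])]
      apply le_of_eq
      ring

end oneStep

section moments

variable {a K : ℝ} (ha : 0 ≤ a) (haK : a * K ^ 2 ≤ 1 / 2) (hK : 1 ≤ K)

include ha haK hK

theorem Ex_S (ps : List (V × V)) (x : V) (c : C) :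
    E a K ps (fun s => s.S x c) (init V C) = 1 := by
  induction ps using List.reverseRecOn with
  | nil => rfl
  | append_singleton ps p ih =>
    rw [E_snoc, E_congr ha haK ps (fun s hs => T_S ha haK hs x c) (inv_init hK), ih]

theorem Ex_SS (ps : List (V × V)) {x y : V} (hxy : x ≠ y) (hps : s(x, y) ∉ ps.map ue) (c : C) :
    E a K ps (fun s => s.S x c * s.S y c) (init V C) = 1 := by
  induction ps using List.reverseRecOn with
  | nil => simp [E_nil, init]
  | append_singleton ps p ih =>
    rw [List.map_append, List.map_singleton, List.mem_append, not_or, List.mem_singleton] at hps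
    rw [E_snoc, E_congr ha haK ps (fun s hs => T_SS ha haK hs hxy (fun h => hps.2 h.symm) c)
      (inv_init hK), ih hps.1]

theorem E_add_const (ps : List (V × V)) (F : St V C → ℝ) (r : ℝ) (s : St V C) :
    E a K ps (fun s => F s + r) s = E a K ps F s + r := by
  have : (fun s => F s + r) = F + fun _ => r := rfl
  rw [this, map_add, E_const]
  rfl

theorem Ex_SS_le (ps : List (V × V)) (hps : (ps.map ue).Nodup) {x y : V} (hxy : x ≠ y) (c : C) :
    E a K ps (fun s => s.S x c * s.S y c) (init V C) ≤ 1 + 2 * a * K ^ 4 := by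
  have hκ : 0 ≤ 2 * a * K ^ 4 := by positivity
  induction ps using List.reverseRecOn with
  | nil => simpa [E_nil, init] using hκ
  | append_singleton ps p ih =>
    have h1 := hps
    rw [List.map_append, List.map_singleton, List.nodup_append] at h1
    by_cases hp : ue p = s(x, y)
    · rw [E_snoc]
      refine (E_mono ha haK ps (fun s hs => T_SS_le ha haK hK hs hxy c) (inv_init hK)).trans ?_
      rw [E_add_const ha haK hK, Ex_SS ha haK hK ps hxy]
      intro hm
      exact h1.2.2 _ hm _ (List.mem_singleton_self _) hp.symm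
    · rw [E_snoc, E_congr ha haK ps (fun s hs => T_SS ha haK hs hxy hp c) (inv_init hK)]
      exact ih h1.1

theorem Ex_S2 (ps : List (V × V)) (x : V) (c : C) :
    E a K ps (fun s => s.S x c ^ 2) (init V C) ≤ K := by
  have h1 : E a K ps (fun s => s.S x c ^ 2) (init V C)
      ≤ E a K ps (K • fun s => s.S x c) (init V C) := by
    apply E_mono ha haK ps _ (inv_init hK)
    intro s hs
    simp only [Pi.smul_apply, smul_eq_mul]
    rw [pow_two]
    exact mul_le_mul_of_nonneg_right (hs.le _ _) (hs.nn _ _)
  rw [map_smul, Pi.smul_apply, Ex_S ha haK hK, smul_eq_mul, mul_one] at h1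
  exact h1

theorem Ex_Y (ps : List (V × V)) (hps : ∀ p ∈ ps, p.1 ≠ p.2) (x : V) (c : C) :
    E a K ps (fun s => s.Y x c - dg x ps) (init V C) = 0 := by
  induction ps using List.reverseRecOn with
  | nil => simp [E_nil, init, dg_nil]
  | append_singleton ps p ih =>
    have hp : p.1 ≠ p.2 := hps p (by simp)
    have hps' : ∀ p ∈ ps, p.1 ≠ p.2 := fun q hq => hps q (by simp [hq])
    by_cases hx : x = p.1 ∨ x = p.2
    · obtain ⟨z, hz, -, hY⟩ := other (C := C) hp hx
      rw [E_snoc, E_congr ha haK ps (G := (fun s : St V C => s.Y x c - dg x ps) +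
        ((fun s : St V C => s.S z c) + fun _ => (-1 : ℝ))) _ (inv_init hK)]
      · rw [map_add, map_add, Pi.add_apply, Pi.add_apply, ih hps', Ex_S ha haK hK, E_const]
        ring
      · intro s hs
        rw [T_one c _ (s.Y x c + s.S z c - dg x (ps ++ [p])) (s.Y x c + s.S z c - dg x (ps ++ [p]))
          (fun o _ => by rw [hY]) (by rw [hY]), dg_snoc_pos hx]
        simp only [Pi.add_apply]
        push_cast
        ring
    · rw [E_snoc, E_congr ha haK ps (G := (fun s : St V C => s.Y x c - dg x ps)) _ (inv_init hK), ih hps']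
      intro s hs
      rw [T_one c _ (s.Y x c - dg x ps) (s.Y x c - dg x ps)
          (fun o _ => by rw [step_Y_not hx, dg_snoc_neg hx])
          (by rw [step_Y_not hx, dg_snoc_neg hx])]
      ring

theorem Ex_YS (ps : List (V × V)) (hps : Good ps) {x y : V} (hxy : x ≠ y)
    (he : s(x, y) ∉ ps.map ue) (c : C) :
    E a K ps (fun s => (s.Y x c - dg x ps) * s.S y c) (init V C)
      ≤ 2 * a * K ^ 4 * dg x ps := by
  induction ps using List.reverseRecOn with
  | nil => simp [E_nil, init, dg_nil]
  | append_singleton ps p ih =>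
    obtain ⟨hg, hp, hn⟩ := hps.of_snoc
    rw [List.map_append, List.map_singleton, List.mem_append, not_or, List.mem_singleton] at he
    by_cases hx : x = p.1 ∨ x = p.2
    · obtain ⟨z, hz, hpz, hY⟩ := other (C := C) hp hx
      have hzy : z ≠ y := by
        rintro rfl
        exact he.2 hpz.symm
      have hy : ¬ (y = p.1 ∨ y = p.2) := by
        intro hy
        have : y ∈ ue p := by
          rcases hy with rfl | rfl <;> simp [ue]
        rw [hpz, Sym2.mem_iff] at this
        rcases this with h | h
        · exact hxy h.symm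
        · exact hzy h.symm
      rw [E_snoc, E_congr ha haK ps (G := (fun s : St V C => (s.Y x c - dg x ps) * s.S y c) +
        ((fun s : St V C => s.S z c * s.S y c) - fun s : St V C => s.S y c)) _ (inv_init hK)]
      · rw [map_add, map_sub, Pi.add_apply, Pi.sub_apply, Ex_S ha haK hK, dg_snoc_pos hx]
        have h1 := ih hg he.1
        have h2 := Ex_SS_le ha haK hK ps hg.1 hzy c
        push_cast
        linarith
      · intro s hs
        rw [T_one c _ ((s.Y x c + s.S z c - dg x (ps ++ [p])) * s.S y c)
          ((s.Y x c + s.S z c - dg x (ps ++ [p])) * s.S y c)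
          (fun o _ => by rw [hY, step_S_not hy]) (by rw [hY, step_S_not hy]), dg_snoc_pos hx]
        simp only [Pi.add_apply, Pi.sub_apply]
        push_cast
        ring
    · rw [E_snoc, dg_snoc_neg hx, E_congr ha haK ps (G := (fun s : St V C => (s.Y x c - dg x ps) * s.S y c))
        _ (inv_init hK)]
      · exact ih hg he.1
      · intro s hs
        by_cases hy : y = p.1 ∨ y = p.2
        · have hP := P_lt_one ha haK hs c (p := p)
          rw [T_one c _ ((s.Y x c - dg x ps) * (s.S y c / (1 - P a K s p.1 p.2 c))) 0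
            (fun o ho => by rw [step_Y_not hx, step_S_ne hy ho])
            (by rw [step_S_eq hy, mul_zero])]
          field_simp
          ring
        · rw [T_one c _ ((s.Y x c - dg x ps) * s.S y c) ((s.Y x c - dg x ps) * s.S y c)
            (fun o ho => by rw [step_Y_not hx, step_S_not hy])
            (by rw [step_Y_not hx, step_S_not hy])]
          ring

theorem Ex_YY (ps : List (V × V)) (hps : Good ps) (x : V) (c : C) :
    E a K ps (fun s => (s.Y x c - dg x ps) ^ 2) (init V C)
      ≤ 2 * a * K ^ 4 * (dg x ps) ^ 2 + K * dg x ps := by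
  induction ps using List.reverseRecOn with
  | nil => simp [E_nil, init, dg_nil]
  | append_singleton ps p ih =>
    obtain ⟨hg, hp, hn⟩ := hps.of_snoc
    by_cases hx : x = p.1 ∨ x = p.2
    · obtain ⟨z, hz, hpz, hY⟩ := other (C := C) hp hx
      rw [E_snoc, E_congr ha haK ps (G := (fun s : St V C => (s.Y x c - dg x ps) ^ 2) +
        ((2 : ℝ) • ((fun s : St V C => (s.Y x c - dg x ps) * s.S z c)
            - (fun s : St V C => s.Y x c - dg x ps)) +
          (((fun s : St V C => s.S z c ^ 2) - (2 : ℝ) • (fun s : St V C => s.S z c))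
            + fun _ => (1 : ℝ))))
          _ (inv_init hK)]
      · simp only [map_add, map_sub, map_smul, Pi.add_apply, Pi.sub_apply, Pi.smul_apply,
          smul_eq_mul, E_const]
        rw [Ex_S ha haK hK, Ex_Y ha haK hK ps hg.2, dg_snoc_pos hx]
        have h1 := ih hg
        have h2 := Ex_YS ha haK hK ps hg hz.symm (by rw [← hpz]; exact hn) c
        have h3 := Ex_S2 ha haK hK ps z c
        have hκ : 0 ≤ 2 * a * K ^ 4 := by positivity
        push_cast
        nlinarith
      · intro s hs
        rw [T_one c _ ((s.Y x c + s.S z c - dg x (ps ++ [p])) ^ 2)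
          ((s.Y x c + s.S z c - dg x (ps ++ [p])) ^ 2)
          (fun o _ => by rw [hY]) (by rw [hY]), dg_snoc_pos hx]
        simp only [Pi.add_apply, Pi.sub_apply, Pi.smul_apply, smul_eq_mul]
        push_cast
        ring
    · rw [E_snoc, dg_snoc_neg hx, E_congr ha haK ps (G := (fun s : St V C => (s.Y x c - dg x ps) ^ 2))
        _ (inv_init hK)]
      · exact ih hg
      · intro s hs
        rw [T_one c _ ((s.Y x c - dg x ps) ^ 2) ((s.Y x c - dg x ps) ^ 2)
            (fun o ho => by rw [step_Y_not hx])
            (by rw [step_Y_not hx])]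
        ring

theorem Ex_SSSS (ps : List (V × V)) {x y : V} (hxy : x ≠ y) (he : s(x, y) ∉ ps.map ue) {c c' : C}
    (hc : c ≠ c') :
    E a K ps (fun s => (s.S x c * s.S y c) * (s.S x c' * s.S y c')) (init V C) ≤ 1 := by
  induction ps using List.reverseRecOn with
  | nil => simp [E_nil, init]
  | append_singleton ps p ih =>
    rw [List.map_append, List.map_singleton, List.mem_append, not_or, List.mem_singleton] at he
    rw [E_snoc]
    exact (E_mono ha haK ps (fun s hs => T_SSSS ha haK hs hxy (fun h => he.2 h.symm) hc)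
      (inv_init hK)).trans (ih he.1)

/-- First moment of the number `Z = ∑ c, S u c * S v c`. -/
theorem Ex_Z (ps : List (V × V)) {x y : V} (hxy : x ≠ y) (he : s(x, y) ∉ ps.map ue) :
    E a K ps (fun s => ∑ c, s.S x c * s.S y c) (init V C) = Fintype.card C := by
  have : (fun s : St V C => ∑ c, s.S x c * s.S y c) = ∑ c, fun s : St V C => s.S x c * s.S y c := by
    ext s; simp
  rw [this, map_sum, Finset.sum_apply]
  simp only [Ex_SS ha haK hK ps hxy he]
  simp

/-- Second moment of `Z = ∑ c, S u c * S v c`. -/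
theorem Ex_ZZ (ps : List (V × V)) {x y : V} (hxy : x ≠ y) (he : s(x, y) ∉ ps.map ue) :
    E a K ps (fun s => (∑ c, s.S x c * s.S y c) ^ 2) (init V C)
      ≤ (Fintype.card C : ℝ) ^ 2 + K ^ 2 * Fintype.card C := by
  have e : (fun s : St V C => (∑ c, s.S x c * s.S y c) ^ 2)
      = ∑ c, ∑ c', fun s : St V C => (s.S x c * s.S y c) * (s.S x c' * s.S y c') := by
    ext s
    simp only [Finset.sum_apply]
    rw [pow_two, Finset.sum_mul_sum]
  rw [e, map_sum, Finset.sum_apply]
  simp only [map_sum, Finset.sum_apply]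
  have h1 : ∀ c c' : C, E a K ps (fun s : St V C => (s.S x c * s.S y c) * (s.S x c' * s.S y c'))
      (init V C) ≤ 1 + if c = c' then K ^ 2 else 0 := by
    intro c c'
    by_cases hc : c = c'
    · subst hc
      rw [if_pos rfl]
      have h2 : E a K ps (fun s : St V C => (s.S x c * s.S y c) * (s.S x c * s.S y c)) (init V C)
          ≤ E a K ps ((K ^ 2) • fun s : St V C => s.S x c * s.S y c) (init V C) := by
        apply E_mono ha haK ps _ (inv_init hK)
        intro s hs
        simp only [Pi.smul_apply, smul_eq_mul]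
        apply mul_le_mul_of_nonneg_right _ (mul_nonneg (hs.nn _ _) (hs.nn _ _))
        rw [pow_two]
        exact mul_le_mul (hs.le _ _) (hs.le _ _) (hs.nn _ _) (by linarith)
      rw [map_smul, Pi.smul_apply, Ex_SS ha haK hK ps hxy he, smul_eq_mul, mul_one] at h2
      linarith
    · rw [if_neg hc, add_zero]
      exact Ex_SSSS ha haK hK ps hxy he hc
  refine (Finset.sum_le_sum fun c _ => Finset.sum_le_sum fun c' _ => h1 c c').trans ?_
  simp only [Finset.sum_add_distrib, Finset.sum_const, Finset.card_univ,
    nsmul_eq_mul, mul_one, Finset.sum_ite_eq, Finset.mem_univ, if_true]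
  apply le_of_eq
  ring

theorem Ex_Zvar (ps : List (V × V)) {x y : V} (hxy : x ≠ y) (he : s(x, y) ∉ ps.map ue) :
    E a K ps (fun s => (∑ c, s.S x c * s.S y c - Fintype.card C) ^ 2) (init V C)
      ≤ K ^ 2 * Fintype.card C := by
  have e : (fun s : St V C => (∑ c, s.S x c * s.S y c - Fintype.card C) ^ 2)
      = (fun s : St V C => (∑ c, s.S x c * s.S y c) ^ 2) +
        ((-2 * (Fintype.card C : ℝ)) • (fun s : St V C => (∑ c, s.S x c * s.S y c)) +
          fun _ => (Fintype.card C : ℝ) ^ 2) := by
    ext s
    simp only [Pi.add_apply, Pi.smul_apply, smul_eq_mul]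
    ring
  rw [e, map_add, map_add, map_smul]
  simp only [Pi.add_apply, Pi.smul_apply, smul_eq_mul, E_const]
  rw [Ex_Z ha haK hK ps hxy he]
  have := Ex_ZZ (C := C) ha haK hK ps hxy he
  linarith [this]

end moments

end Pool.Agent.N608.OEC
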